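import Pool.Agent.D0H45.Q4.Fin

/-!
# The number of the good `m`, and the determinant
-/

set_option autoImplicit false

open scoped Classical

namespace Pool.Agent.D0H45.Q4

open Finset
open Pool.Agent.Y703.CQ (nr c2)

/-- the size of the class is at least `c X / √log X` -/
theorem cm_ge : ∃ (c : ℝ) (X₀ : ℕ), 0 < c ∧ ∀ X : ℕ, X₀ ≤ X →
    c * X / Real.sqrt (Real.log X) ≤ (((Icc 1 X).filter Cm).card : ℝ) := by
  obtain ⟨c, X₀, hc, h⟩ := t_LOW Pool.Agent.Y405.CQ.t_MER Pool.Agent.Y302.CQ.t_CHE ∅ ∅ trivial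
  refine ⟨c, max X₀ 3, hc, fun X hX => ?_⟩
  have k1 : X₀ ≤ X := le_trans (le_max_left _ _) hX
  have k3 : 3 ≤ X := le_trans (le_max_right _ _) hX
  have a1 := h X k1
  have e2 := NS.card_eq ∅ ∅ X (fun _ => True)
  rw [Finset.filter_true] at e2
  simp only [and_true] at e2
  have e1 : ((Icc 1 X).filter fun D => Squarefree D ∧ Cl ∅ ∅ D.primeFactors) =
      (Icc 1 X).filter Cm :=
    Finset.filter_congr fun m _ => (cm_iff m).symm
  rw [← e2, e1] at a1
  have hL : 0 < Real.log X := Real.log_pos (by exact_mod_cast (by omega : 1 < X))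
  have e3 : (Real.log X) ^ (-1 + dl ∅ : ℝ) = (Real.sqrt (Real.log X))⁻¹ := by
    unfold dl
    rw [Real.sqrt_eq_rpow, ← Real.rpow_neg hL.le]
    norm_num
  rw [e3] at a1
  rw [div_eq_mul_inv]
  exact a1

/-- **The number of the good `m`** is at least `c X / √log X`. -/
theorem good_ge : ∃ (c : ℝ) (X₀ : ℕ), 0 < c ∧ ∀ X : ℕ, X₀ ≤ X →
    c * X / Real.sqrt (Real.log X) ≤ (((Icc 1 X).filter fun m => Cm m ∧ Good m).card : ℝ) := by
  obtain ⟨c, X₀, hc, h⟩ := cm_ge
  have h1 := t_DENQ4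
  have hc2 : 0 < c2 := Pool.Agent.Y948.CQ.t_C2.2.1
  have h2 := (h1.eventually (lt_mem_nhds (show c2 / 2 < c2 by linarith)))
  obtain ⟨X₁, hX₁⟩ := Filter.eventually_atTop.1 h2
  refine ⟨c * (c2 / 2), max (max X₀ X₁) 3, by positivity, fun X hX => ?_⟩
  have k1 : X₀ ≤ X := le_trans (le_trans (le_max_left _ _) (le_max_left _ _)) hX
  have k2 : X₁ ≤ X := le_trans (le_trans (le_max_right _ _) (le_max_left _ _)) hX
  have k3 : 3 ≤ X := le_trans (le_max_right _ _) hX
  have a1 := h X k1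
  have a2 := hX₁ X k2
  have hL : 0 < Real.log X := Real.log_pos (by exact_mod_cast (by omega : 1 < X))
  have hX0 : (0 : ℝ) < X := by exact_mod_cast (by omega : 0 < X)
  have hpos : 0 < c * X / Real.sqrt (Real.log X) := by positivity
  have hden : 0 < (((Icc 1 X).filter Cm).card : ℝ) := lt_of_lt_of_le hpos a1
  have a3 := (lt_div_iff₀ hden).1 a2
  refine le_trans ?_ a3.le
  have e4 : c * (c2 / 2) * X / Real.sqrt (Real.log X) =
      c2 / 2 * (c * X / Real.sqrt (Real.log X)) := by ring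
  rw [e4]
  exact mul_le_mul_of_nonneg_left a1 (by positivity)

/-- the matrix: the Laplacian of the quadratic symbols plus the symbol of `2` on the diagonal -/
noncomputable def Mt (m : ℕ) : Matrix m.primeFactors m.primeFactors (ZMod 2) := fun p q =>
  if p = q then ∑ r ∈ m.primeFactors.erase p, nr p r + (if (p : ℕ) % 8 = 5 then 1 else 0)
  else nr p q

theorem Mt_mulVec (m : ℕ) (x : ℕ → ZMod 2) (p : m.primeFactors) :
    (Mt m).mulVec (fun q => x q) p = ∑ q ∈ m.primeFactors, nr p q * (x q + x p) +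
      (if (p : ℕ) % 8 = 5 then 1 else 0) * x p := by
  have h1 : (Mt m).mulVec (fun q => x q) p = ∑ q : m.primeFactors, Mt m p q * x q := rfl
  rw [h1, ← Finset.add_sum_erase univ _ (Finset.mem_univ p)]
  have h2 : ∑ q ∈ (univ : Finset m.primeFactors).erase p, Mt m p q * x q =
      ∑ q ∈ m.primeFactors.erase p, nr p q * x q := by
    refine Finset.sum_bij (fun q _ => (q : ℕ)) (fun q hq => ?_) (fun a _ b _ h => Subtype.ext h)
      (fun b hb => ?_) (fun q hq => ?_)
    · exact Finset.mem_erase.2 ⟨fun h => (Finset.mem_erase.1 hq).1 (Subtype.ext h), q.2⟩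
    · obtain ⟨hb1, hb2⟩ := Finset.mem_erase.1 hb
      exact ⟨⟨b, hb2⟩, Finset.mem_erase.2 ⟨fun h => hb1 (congrArg Subtype.val h),
        Finset.mem_univ _⟩, rfl⟩
    · unfold Mt
      rw [if_neg fun h => (Finset.mem_erase.1 hq).1 h.symm]
  have h3 : Mt m p p = ∑ r ∈ m.primeFactors.erase p, nr p r +
      (if (p : ℕ) % 8 = 5 then 1 else 0) := if_pos rfl
  rw [h2, h3, ← Finset.add_sum_erase m.primeFactors _ p.2, add_mul, Finset.sum_mul]
  have h4 : nr p p * (x p + x p) = 0 := by rw [BOX.two_add, mul_zero]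
  rw [h4]
  have h5 : ∑ q ∈ m.primeFactors.erase p, nr p q * (x q + x p) =
      ∑ q ∈ m.primeFactors.erase p, nr p q * x q + ∑ q ∈ m.primeFactors.erase p, nr p q * x p := by
    rw [← Finset.sum_add_distrib]
    exact Finset.sum_congr rfl fun q _ => by ring
  rw [h5]
  ring

/-- **The good numbers and the determinant.** -/
theorem good_iff_det (m : ℕ) : Good m ↔ (Mt m).det ≠ 0 := by
  constructor
  · intro h h0
    obtain ⟨v, hv, hv0⟩ := Matrix.exists_mulVec_eq_zero_iff.2 h0
    set x : ℕ → ZMod 2 := fun n => if h : n ∈ m.primeFactors then v ⟨n, h⟩ else 0 with hx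
    have hxv : (fun q : m.primeFactors => x q) = v := by
      funext q
      exact dif_pos q.2
    apply hv
    funext p
    rw [← hxv]
    refine h x (fun q hq => ?_) p p.2
    have h1 := Mt_mulVec m x ⟨q, hq⟩
    rw [hxv, hv0] at h1
    exact h1.symm
  · intro h x hx p hp
    by_contra hc
    apply h
    refine Matrix.exists_mulVec_eq_zero_iff.1 ⟨fun q => x q, fun h0 => hc (congrFun h0 ⟨p, hp⟩), ?_⟩
    funext q
    rw [Mt_mulVec]
    exact hx q q.2

end Pool.Agent.D0H45.Q4
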