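import Pool.Agent.D0H10.Q4.StmC
import Pool.Agent.D0H45.Q4.Low2

/-!
# Project Q4, module C7 QDEN: the exact proportion over `ℚ`
-/

set_option autoImplicit false

open Filter
open scoped Topology Classical

namespace Pool.Agent.D0H45.Q4

open Pool.Agent.D0H10.Q4 (Adm nsq matQ S_QDEN)
open Pool.Agent.Y703.CQ (nr c2)

theorem nsq_eq (p a : ℕ) : nsq p a = nr p a := rfl

/-- the symbol of two -/
theorem nsq_two {p : ℕ} (hp : p.Prime) (h4 : p % 4 = 1) :
    nsq p 2 = if p % 8 = 5 then 1 else 0 := by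
  have hf : Fact p.Prime := ⟨hp⟩
  have h := ZMod.exists_sq_eq_two_iff (p := p) (by omega)
  unfold nsq
  by_cases h5 : p % 8 = 5
  · rw [if_pos h5, if_neg]
    intro hs
    have := h.1 (by simpa using hs)
    omega
  · rw [if_neg h5, if_pos]
    have := h.2 (by omega)
    simpa using this

/-- the matrices agree -/
theorem mat_eq {m : ℕ} (h : ∀ p ∈ m.primeFactors, p % 4 = 1) : matQ m = Mt m := by
  funext p q
  unfold matQ Mt
  rw [Matrix.of_apply]
  by_cases hpq : p = q
  · rw [if_pos hpq, if_pos hpq, nsq_two (Nat.prime_of_mem_primeFactors p.2) (h p p.2), add_comm]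
    rfl
  · rw [if_neg hpq, if_neg hpq]
    rfl

theorem good_iff_matQ {m : ℕ} (h : Adm m) : Good m ↔ (matQ m).det ≠ 0 := by
  rw [mat_eq h.2]
  exact good_iff_det m

theorem adm_iff (m : ℕ) : Adm m ↔ Cm m := Iff.rfl

theorem good_set (X : ℕ) : ((Finset.Icc 1 X).filter fun m => Cm m ∧ Good m) =
    ((Finset.Icc 1 X).filter fun m => Adm m ∧ (matQ m).det ≠ 0) :=
  Finset.filter_congr fun _ _ => and_congr_right fun h => good_iff_matQ h

/-- **The exact proportion over `ℚ`.** -/
theorem qden : S_QDEN := by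
  unfold S_QDEN
  refine (t_DENQ4).congr fun X => ?_
  rw [good_set X]
  congr!

/-- **The number of the `m` with nonzero determinant** is at least `c X / √log X`. -/
theorem qden_ge : ∃ (c : ℝ) (X₀ : ℕ), 0 < c ∧ ∀ X : ℕ, X₀ ≤ X →
    c * X / Real.sqrt (Real.log X) ≤
      (((Finset.Icc 1 X).filter fun m => Adm m ∧ (matQ m).det ≠ 0).card : ℝ) := by
  obtain ⟨c, X₀, hc, h⟩ := good_ge
  refine ⟨c, X₀, hc, fun X hX => (h X hX).trans (le_of_eq ?_)⟩
  rw [good_set X]

end Pool.Agent.D0H45.Q4
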