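import Pool.Agent.D0H45.Q4.Stm

/-! Q4-BOX: the count in a box (after the file of project SQ, itself after helpers 657 and 911). The
extra vertex `2` is an additional small index; one of the large primes `5` modulo `8` is the vertex
at which the variables vanish. -/

set_option autoImplicit false

open scoped Classical

namespace Pool.Agent.D0H45.Q4.BOX

open Finset
open Pool.Agent.D0H45.Q4
open Pool.Agent.Y703.CQ (nr sg prs HB S_EQ ext GdA S_SYM S_C2 S_LA c2 S_MER S_CHE)

/-- the type of the labels -/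
abbrev Lb (S₀ : Finset ℕ) : Type := (S₀ → ZMod 2) × (S₀ → ZMod 2) × ZMod 2

/-- the label of a prime with respect to the small primes -/
noncomputable def lb (S₀ : Finset ℕ) (x : ℕ) : Lb S₀ :=
  (fun u => nr u x, fun u => nr x u, tt x)

/-- the good labels -/
def LN {ι : Type} (S₀ : Finset ℕ) (T : Finset ι) (β : ι → Lb S₀) : Prop :=
  ∀ w : S₀ → ZMod 2, (∃ u : S₀, w u ≠ 0) → ∃ i ∈ T, ∑ u : S₀, w u * (β i).2.1 u ≠ 0

theorem nr_self (p : ℕ) : nr p p = 0 := by
  unfold nr
  rw [if_pos]
  rw [ZMod.natCast_self]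
  exact ⟨0, by simp⟩

theorem nr_symm {p q : ℕ} (hp : p.Prime) (hp1 : p % 4 = 1) (hq : q.Prime) (hq2 : q ≠ 2) :
    nr p q = nr q p := by
  have : Fact p.Prime := ⟨hp⟩
  have : Fact q.Prime := ⟨hq⟩
  unfold nr
  have h := ZMod.exists_sq_eq_prime_iff_of_mod_four_eq_one (p := p) (q := q) (by omega) hq2
  by_cases h1 : IsSquare (q : ZMod p)
  · rw [if_pos h1, if_pos (h.1 h1)]
  · rw [if_neg h1, if_neg (fun h2 => h1 (h.2 h2))]

section one
variable {ι : Type} [Fintype ι] [LinearOrder ι] {T : Finset ι} {S₀ : Finset ℕ} {p : ι → ℕ}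

/-- extension by zero -/
noncomputable def ez0 {S₀ : Finset ℕ} (v : S₀ → ZMod 2) (n : ℕ) : ZMod 2 :=
  if h : n ∈ S₀ then v ⟨n, h⟩ else 0

theorem ez0_coe {S₀ : Finset ℕ} (v : S₀ → ZMod 2) (u : S₀) : ez0 v u = v u := by
  unfold ez0
  rw [dif_pos u.2]

omit [LinearOrder ι] in
theorem nd_iff (hJ : ∀ i, mk (p i) = 1 ↔ i ∈ T) :
    Nd S₀ (univ.image p) ↔ LN S₀ T (fun i => lb S₀ (p i)) := by
  unfold Nd LN
  constructor
  · intro h w hw
    obtain ⟨u, hu2⟩ := hw
    obtain ⟨x, hx, hx1, hx2⟩ := h (ez0 w) ⟨u, u.2, by rw [ez0_coe]; exact hu2⟩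
    rw [Finset.mem_image] at hx
    obtain ⟨i, -, rfl⟩ := hx
    refine ⟨i, (hJ i).1 hx1, ?_⟩
    rw [← Finset.sum_coe_sort S₀] at hx2
    intro h0
    apply hx2
    rw [← h0]
    refine Finset.sum_congr rfl fun u _ => ?_
    rw [ez0_coe]
    rfl
  · intro h w hw
    obtain ⟨u, hu0, hu2⟩ := hw
    obtain ⟨i, hi, hi2⟩ := h (fun u => w u) ⟨⟨u, hu0⟩, hu2⟩
    refine ⟨p i, Finset.mem_image_of_mem _ (Finset.mem_univ _), (hJ i).2 hi, ?_⟩
    rw [← Finset.sum_coe_sort S₀]
    exact hi2

omit [LinearOrder ι] in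
theorem sum_un (hp : Function.Injective p) (hd : ∀ i, p i ∉ S₀) (f : ℕ → ZMod 2) :
    ∑ x ∈ S₀ ∪ univ.image p, f x = ∑ u : S₀, f u + ∑ l, f (p l) := by
  rw [Finset.sum_union, Finset.sum_image (fun a _ b _ h => hp h), ← Finset.sum_coe_sort S₀]
  rw [Finset.disjoint_left]
  intro x hx hx'
  rw [Finset.mem_image] at hx'
  obtain ⟨i, -, rfl⟩ := hx'
  exact hd i hx

theorem ext_sum {J1 : Finset ι} (hpr : ∀ i, ((p i).Prime ∧ p i % 4 = 1) ∧ p i ≠ 2)
    (k : ι) (hk : k ∈ J1) (y : ι → ZMod 2) (yk : ZMod 2) :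
    ∑ l, Pool.Agent.Y703.CQ.ext (fun e : prs J1 => nr (p e.1.1) (p e.1.2)) k l * (y l + yk) =
      ∑ l, nr (p k) (p l) * (y l + yk) := by
  refine Finset.sum_congr rfl fun l _ => ?_
  congr 1
  unfold Pool.Agent.Y703.CQ.ext
  by_cases h : (k, l) ∈ prs J1
  · rw [dif_pos h]
  · rw [dif_neg h]
    by_cases hlk : l = k
    · subst hlk
      rw [dif_neg (fun h' => h h'.1), nr_self]
    · have h1 : l ∈ J1 ∧ ¬ k < l := by
        by_contra hcon
        apply h
        unfold prs
        refine Finset.mem_filter.2 ⟨Finset.mem_univ _, hk, hlk, fun hl => ?_⟩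
        by_contra hkl
        exact hcon ⟨hl, hkl⟩
      have h2 : (l, k) ∈ prs J1 := by
        unfold prs
        exact Finset.mem_filter.2 ⟨Finset.mem_univ _, h1.1, fun h => hlk h.symm,
          fun _ => lt_of_le_of_ne (not_lt.1 h1.2) hlk⟩
      rw [dif_pos ⟨h2, hk⟩]
      exact nr_symm (hpr l).1.1 (hpr l).1.2 (hpr k).1.1 (hpr k).2

end one

/-- the symbols of the small indices, with the extra one -/
noncomputable def mA {S₀ : Finset ℕ} : Option S₀ → Option S₀ → ZMod 2
  | some u, some v => nr u v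
  | some u, none => tt u
  | none, some v => tt v
  | none, none => 0

/-- the symbols of the small and the large indices -/
noncomputable def mB {S₀ : Finset ℕ} {ι : Type} (β : ι → Lb S₀) : Option S₀ → ι → ZMod 2
  | some u, l => (β l).1 u
  | none, l => (β l).2.2

/-- the symbols of the large and the small indices -/
noncomputable def mC {S₀ : Finset ℕ} {ι : Type} (β : ι → Lb S₀) : ι → Option S₀ → ZMod 2
  | k, some u => (β k).2.1 u
  | k, none => (β k).2.2

/-- the left hand side of an equation -/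
noncomputable def lh (S : Finset ℕ) (x : ℕ → ZMod 2) (p : ℕ) : ZMod 2 :=
  ∑ q ∈ S, nr p q * (x q + x p) + tt p * x p

theorem two_add (a : ZMod 2) : a + a = 0 := by
  have : ∀ a : ZMod 2, a + a = 0 := by decide
  exact this a

/-- the sum of the equations -/
theorem sum_lh (S : Finset ℕ) (hS : ∀ p ∈ S, (p.Prime ∧ p % 4 = 1) ∧ p ≠ 2) (x : ℕ → ZMod 2) :
    ∑ p ∈ S, lh S x p = ∑ p ∈ S, tt p * x p := by
  unfold lh
  rw [Finset.sum_add_distrib]
  have h1 : ∑ p ∈ S, ∑ q ∈ S, nr p q * (x q + x p) = 0 := by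
    have h2 : ∀ p ∈ S, ∑ q ∈ S, nr p q * (x q + x p) =
        ∑ q ∈ S, nr p q * x q + ∑ q ∈ S, nr p q * x p := by
      intro p _
      rw [← Finset.sum_add_distrib]
      exact Finset.sum_congr rfl fun q _ => by ring
    rw [Finset.sum_congr rfl h2, Finset.sum_add_distrib]
    have h3 : ∑ p ∈ S, ∑ q ∈ S, nr p q * x q = ∑ p ∈ S, ∑ q ∈ S, nr p q * x p := by
      rw [Finset.sum_comm]
      refine Finset.sum_congr rfl fun q hq => Finset.sum_congr rfl fun p hp => ?_
      rw [nr_symm (hS p hp).1.1 (hS p hp).1.2 (hS q hq).1.1 (hS q hq).2]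
    rw [h3]
    exact two_add _
  rw [h1, zero_add]

section two
variable {ι : Type} [Fintype ι] [LinearOrder ι] {T : Finset ι} {S₀ : Finset ℕ} {p : ι → ℕ}

omit [LinearOrder ι] in
/-- the equation of a small prime -/
theorem eq_u (hp : Function.Injective p) (hd : ∀ i, p i ∉ S₀) (x : ℕ → ZMod 2) (s : ZMod 2)
    (X : Option S₀ → ZMod 2) (Y : ι → ZMod 2) (hX : ∀ u : S₀, X (some u) = x u + s)
    (hX0 : X none = s) (hY : ∀ l, Y l = x (p l) + s) (u : S₀) :
    ∑ v, mA (some u) v * (X v + X (some u)) +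
      ∑ l, mB (fun i => lb S₀ (p i)) (some u) l * (Y l + X (some u)) + 0 * X (some u) =
      lh (S₀ ∪ univ.image p) x u := by
  unfold lh
  rw [sum_un hp hd, Fintype.sum_option]
  simp only [mA, mB, lb, hX, hX0, hY, zero_mul, add_zero]
  have e1 : ∀ a : ZMod 2, a + s + (x u + s) = a + x u := by
    intro a
    have : ∀ a b c : ZMod 2, a + b + (c + b) = a + c := by decide
    exact this _ _ _
  have e2 : s + (x u + s) = x u := by
    have : ∀ b c : ZMod 2, b + (c + b) = c := by decide
    exact this _ _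
  simp only [e1, e2]
  ring

/-- the equation of a large prime -/
theorem eq_k {J1 : Finset ι} (hp : Function.Injective p)
    (hpr : ∀ i, ((p i).Prime ∧ p i % 4 = 1) ∧ p i ≠ 2)
    (hd : ∀ i, p i ∉ S₀) (x : ℕ → ZMod 2) (s : ZMod 2)
    (X : Option S₀ → ZMod 2) (Y : ι → ZMod 2) (hX : ∀ u : S₀, X (some u) = x u + s)
    (hX0 : X none = s) (hY : ∀ l, Y l = x (p l) + s) (k : ι) (hk : k ∈ J1) :
    ∑ v, mC (fun i => lb S₀ (p i)) k v * (X v + Y k) +
      ∑ l, Pool.Agent.Y703.CQ.ext (fun e : prs J1 => nr (p e.1.1) (p e.1.2)) k l * (Y l + Y k) +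
        0 * Y k = lh (S₀ ∪ univ.image p) x (p k) := by
  unfold lh
  rw [sum_un hp hd, Fintype.sum_option, ext_sum hpr k hk]
  simp only [mC, lb, hX, hX0, hY, zero_mul, add_zero]
  have e1 : ∀ a : ZMod 2, a + s + (x (p k) + s) = a + x (p k) := by
    intro a
    have : ∀ a b c : ZMod 2, a + b + (c + b) = a + c := by decide
    exact this _ _ _
  have e2 : s + (x (p k) + s) = x (p k) := by
    have : ∀ b c : ZMod 2, b + (c + b) = c := by decide
    exact this _ _
  simp only [e1, e2]
  ring

omit [LinearOrder ι] in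
/-- the equation of the extra vertex -/
theorem eq_0 (hp : Function.Injective p) (hd : ∀ i, p i ∉ S₀) (x : ℕ → ZMod 2) (s : ZMod 2)
    (X : Option S₀ → ZMod 2) (Y : ι → ZMod 2) (hX : ∀ u : S₀, X (some u) = x u + s)
    (hX0 : X none = s) (hY : ∀ l, Y l = x (p l) + s) :
    ∑ v, mA none v * (X v + X none) +
      ∑ l, mB (fun i => lb S₀ (p i)) none l * (Y l + X none) + 0 * X none =
      ∑ q ∈ S₀ ∪ univ.image p, tt q * x q := by
  rw [sum_un hp hd, Fintype.sum_option]
  simp only [mA, mB, lb, hX, hX0, hY, zero_mul, add_zero, zero_add]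
  have e1 : ∀ a : ZMod 2, a + s + s = a := by
    intro a
    have : ∀ a b : ZMod 2, a + b + b = a := by decide
    exact this _ _
  simp only [e1]

theorem gd_iff (hp : Function.Injective p) (hpr : ∀ i, ((p i).Prime ∧ p i % 4 = 1) ∧ p i ≠ 2)
    (h₀ : ∀ u ∈ S₀, (u.Prime ∧ u % 4 = 1) ∧ u ≠ 2)
    (hd : ∀ i, p i ∉ S₀) (i₀ : ι) :
    Gd (S₀ ∪ univ.image p) ↔ GdA (univ : Finset (Option S₀)) (univ.erase i₀)
      mA (mB fun i => lb S₀ (p i)) (mC fun i => lb S₀ (p i))
      (Pool.Agent.Y703.CQ.ext fun e : prs (univ.erase i₀) => nr (p e.1.1) (p e.1.2))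
      (fun _ => 0) (fun _ => 0) := by
  have hS : ∀ q ∈ S₀ ∪ univ.image p, (q.Prime ∧ q % 4 = 1) ∧ q ≠ 2 := by
    intro q hq
    rw [Finset.mem_union, Finset.mem_image] at hq
    rcases hq with hq | ⟨k, -, rfl⟩
    · exact h₀ q hq
    · exact hpr k
  have hsum := sum_lh _ hS
  unfold Gd GdA
  constructor
  · intro h X Y _ hY0 h1 h2
    set s := X none with hs
    set x : ℕ → ZMod 2 := fun n => if h : n ∈ S₀ then X (some ⟨n, h⟩) + s else
      if h : ∃ l, p l = n then Y h.choose + s else 0 with hx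
    have e1 : ∀ u : S₀, X (some u) = x u + s := by
      intro u
      simp only [hx]
      rw [dif_pos u.2, add_assoc, two_add, add_zero]
    have e2 : ∀ l, Y l = x (p l) + s := by
      intro l
      have hex : ∃ l', p l' = p l := ⟨l, rfl⟩
      simp only [hx]
      rw [dif_neg (hd l), dif_pos hex, add_assoc, two_add, add_zero]
      exact congrArg Y (hp hex.choose_spec).symm
    have g1 : ∀ u : S₀, lh (S₀ ∪ univ.image p) x u = 0 := by
      intro u
      rw [← eq_u hp hd x s X Y e1 hs.symm e2 u]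
      exact h1 (some u) (Finset.mem_univ _)
    have g2 : ∀ k, k ≠ i₀ → lh (S₀ ∪ univ.image p) x (p k) = 0 := by
      intro k hk
      have hk' : k ∈ (univ.erase i₀ : Finset ι) := Finset.mem_erase.2 ⟨hk, Finset.mem_univ _⟩
      rw [← eq_k hp hpr hd x s X Y e1 hs.symm e2 k hk']
      exact h2 k hk'
    have g0 : ∑ q ∈ S₀ ∪ univ.image p, tt q * x q = 0 := by
      rw [← eq_0 hp hd x s X Y e1 hs.symm e2]
      exact h1 none (Finset.mem_univ _)
    have g3 : lh (S₀ ∪ univ.image p) x (p i₀) = 0 := by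
      have h3 := hsum x
      rw [g0, sum_un hp hd] at h3
      rw [Finset.sum_eq_zero fun u _ => g1 u, zero_add,
        Finset.sum_eq_single i₀ (fun k _ hk => g2 k hk)
          (fun h => absurd (Finset.mem_univ _) h)] at h3
      exact h3
    have hsol : Sol (S₀ ∪ univ.image p) x := by
      intro q hq
      rw [Finset.mem_union, Finset.mem_image] at hq
      rcases hq with hq | ⟨k, -, rfl⟩
      · exact g1 ⟨q, hq⟩
      · by_cases hk : k = i₀
        · rw [hk]
          exact g3
        · exact g2 k hk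
    have h3 := h x hsol
    have hxl : ∀ l, x (p l) = 0 := fun l =>
      h3 _ (Finset.mem_union_right _ (Finset.mem_image_of_mem _ (Finset.mem_univ _)))
    have hs0 : s = 0 := by
      have h4 := e2 i₀
      rw [hY0 i₀ (Finset.notMem_erase _ _), hxl, zero_add] at h4
      exact h4.symm
    refine ⟨fun u => ?_, fun l => ?_⟩
    · rcases u with _ | u
      · exact hs0
      · rw [e1, hs0, h3 _ (Finset.mem_union_left _ u.2), add_zero]
    · rw [e2, hxl, hs0, add_zero]
  · intro h x hx
    set s := x (p i₀) with hs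
    have g0 : ∑ q ∈ S₀ ∪ univ.image p, tt q * x q = 0 := by
      rw [← hsum x]
      exact Finset.sum_eq_zero fun q hq => hx q hq
    obtain ⟨ht1, ht2⟩ := h (fun o => match o with
      | some u => x u + s
      | none => s) (fun l => x (p l) + s)
      (fun u hu => absurd (Finset.mem_univ _) hu)
      (fun k hk => by
        have hk' : k = i₀ := by
          by_contra hne
          exact hk (Finset.mem_erase.2 ⟨hne, Finset.mem_univ _⟩)
        rw [hk', ← hs]
        exact two_add s)
      (fun u _ => by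
        rcases u with _ | u
        · have h3 := eq_0 hp hd x s (fun o => match o with
            | some u => x u + s
            | none => s) (fun l => x (p l) + s) (fun _ => rfl) rfl (fun _ => rfl)
          rw [g0] at h3
          exact h3
        · have h3 := eq_u hp hd x s (fun o => match o with
            | some u => x u + s
            | none => s) (fun l => x (p l) + s) (fun _ => rfl) rfl (fun _ => rfl) u
          exact h3.trans (hx u (Finset.mem_union_left _ u.2)))
      (fun k hk => by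
        have h3 := eq_k hp hpr hd x s (fun o => match o with
            | some u => x u + s
            | none => s) (fun l => x (p l) + s) (fun _ => rfl) rfl (fun _ => rfl) k hk
        exact h3.trans (hx (p k)
          (Finset.mem_union_right _ (Finset.mem_image_of_mem _ (Finset.mem_univ _)))))
    have hs0 : s = 0 := ht1 none
    intro y hy
    rw [Finset.mem_union, Finset.mem_image] at hy
    rcases hy with hy | ⟨k, -, rfl⟩
    · have h3 := ht1 (some ⟨y, hy⟩)
      simp only [hs0, add_zero] at h3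
      exact h3
    · have h3 := ht2 k
      simp only [hs0, add_zero] at h3
      exact h3

end two

theorem HB_sub {ι : Type} {J1 : Finset ι} {C : ι → Finset ℕ} {X : ι → ℕ} {κ : ℝ}
    (h : HB J1 C X κ) (P : ι → ℕ → Prop) [∀ i, DecidablePred (P i)] :
    HB J1 (fun i => (C i).filter (P i)) X κ := by
  intro i l hil hi c d hc hd
  have h1 := h i l hil hi (fun x => if P i x then c x else 0) (fun y => if P l y then d y else 0)
    (fun x => by
      split_ifs
      · exact hc x
      · simp) (fun y => by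
      split_ifs
      · exact hd y
      · simp)
  refine (le_of_eq ?_).trans h1
  congr 1
  rw [Finset.sum_filter]
  refine Finset.sum_congr rfl fun x _ => ?_
  by_cases hx : P i x
  · rw [if_pos hx, Finset.sum_filter]
    refine Finset.sum_congr rfl fun y _ => ?_
    by_cases hy : P l y
    · rw [if_pos hy, if_pos hx, if_pos hy]
    · rw [if_neg hy, if_neg hy, mul_zero, zero_mul]
  · rw [if_neg hx]
    symm
    refine Finset.sum_eq_zero fun y _ => ?_
    rw [if_neg hx, zero_mul, zero_mul]

theorem HB_mono {ι : Type} {J1 J2 : Finset ι} {C : ι → Finset ℕ} {X : ι → ℕ} {κ : ℝ}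
    (h : HB J2 C X κ) (hJ : J1 ⊆ J2) : HB J1 C X κ :=
  fun i l hil hi => h i l hil (hJ hi)

theorem prs_card {ι : Type} [Fintype ι] [LinearOrder ι] (J1 : Finset ι) :
    (prs J1).card ≤ Fintype.card ι * Fintype.card ι := by
  unfold prs
  refine (Finset.card_filter_le _ _).trans ?_
  rw [Finset.card_univ, Fintype.card_prod]

/-- **The count in a box.** -/
theorem t_BOX : S_BOX := by
  intro hEQ hLA ι _ _ T C X κ S₀ hκ hCX hHB hS₀ hC hdis hne
  obtain ⟨i₀, i₁, hi₀, hi₁, hne⟩ := hne
  set J1 : Finset ι := univ.erase i₀ with hJ1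
  have hJc : J1.card = Fintype.card ι - 1 := by
    rw [hJ1, Finset.card_erase_of_mem (Finset.mem_univ _), Finset.card_univ]
  have hHB1 : HB J1 C X κ := HB_mono hHB (Finset.subset_univ _)
  set cc : ℝ := 2 * (4 ^ (S₀.card + 1) / 2 ^ (Fintype.card ι - 1)) with hcc
  set R : ℝ := 2 ^ (Fintype.card ι * Fintype.card ι) * (κ * ∏ j, (X j : ℝ)) with hR
  have hcc0 : 0 ≤ cc := by positivity
  have hX0 : 0 ≤ κ * ∏ j, (X j : ℝ) :=
    mul_nonneg hκ (Finset.prod_nonneg fun j _ => by positivity)
  have hR0 : 0 ≤ R := mul_nonneg (by positivity) hX0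
  have hRp : (2 : ℝ) ^ (prs J1).card * (κ * ∏ j, (X j : ℝ)) ≤ R := by
    rw [hR]
    exact mul_le_mul_of_nonneg_right (pow_le_pow_right₀ (by norm_num) (prs_card J1)) hX0
  -- facts on tuples
  have hinj : ∀ p ∈ Fintype.piFinset C, Function.Injective p := by
    intro p hp i j hij
    rw [Fintype.mem_piFinset] at hp
    by_contra hne
    have h1 := Finset.disjoint_left.1 (hdis i j hne) (hp i)
    rw [hij] at h1
    exact h1 (hp j)
  have hJ : ∀ p ∈ Fintype.piFinset C, ∀ i, mk (p i) = 1 ↔ i ∈ T := by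
    intro p hp i
    rw [Fintype.mem_piFinset] at hp
    exact (hC i _ (hp i)).2.2.2.symm
  have hd : ∀ p ∈ Fintype.piFinset C, ∀ i, p i ∉ S₀ := by
    intro p hp i
    rw [Fintype.mem_piFinset] at hp
    exact (hC i _ (hp i)).2.2.1
  have hpr : ∀ p ∈ Fintype.piFinset C, ∀ i, ((p i).Prime ∧ p i % 4 = 1) ∧ p i ≠ 2 := by
    intro p hp i
    rw [Fintype.mem_piFinset] at hp
    exact ⟨(hC i _ (hp i)).1, (hC i _ (hp i)).2.1⟩
  have hU1 : (univ : Finset (Option S₀)).card = S₀.card + 1 := by
    rw [Finset.card_univ, Fintype.card_option, Fintype.card_coe]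
  have ht1 : ∀ p ∈ Fintype.piFinset C, ∀ i, i ∈ T → tt (p i) = 0 := by
    intro p hp i hi
    exact if_pos ((hJ p hp i).2 hi)
  have ht0 : ∀ p ∈ Fintype.piFinset C, ∀ i, i ∉ T → tt (p i) = 1 := by
    intro p hp i hi
    exact if_neg fun h => hi ((hJ p hp i).1 h)
  -- the part with given labels
  have h1 : ∀ β : ι → Lb S₀, LN S₀ T β →
      |(((Fintype.piFinset C).filter fun p => (fun i => lb S₀ (p i)) = β ∧
          Gd (S₀ ∪ univ.image p)).card : ℝ) -
        c2 * (((Fintype.piFinset C).filter fun p => (fun i => lb S₀ (p i)) = β).card : ℝ)| ≤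
      cc * (((Fintype.piFinset C).filter fun p => (fun i => lb S₀ (p i)) = β).card : ℝ) + R := by
    intro β hβ
    by_cases hemp : ((Fintype.piFinset C).filter fun p => (fun i => lb S₀ (p i)) = β) = ∅
    · have he2 : ((Fintype.piFinset C).filter fun p => (fun i => lb S₀ (p i)) = β ∧
          Gd (S₀ ∪ univ.image p)) = ∅ := by
        rw [← Finset.filter_filter, hemp, Finset.filter_empty]
      rw [he2, hemp]
      simpa using hR0
    obtain ⟨p₀, hp₀⟩ := Finset.nonempty_iff_ne_empty.2 hemp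
    rw [Finset.mem_filter] at hp₀
    obtain ⟨hp₀, hp₀β⟩ := hp₀
    set C' : ι → Finset ℕ := fun i => (C i).filter fun q => lb S₀ q = β i with hC'
    have hpi : (Fintype.piFinset C).filter (fun p => (fun i => lb S₀ (p i)) = β) =
        Fintype.piFinset C' := by
      ext p
      simp only [Finset.mem_filter, Fintype.mem_piFinset, hC']
      constructor
      · rintro ⟨h2, h3⟩ i
        exact ⟨h2 i, congrFun h3 i⟩
      · intro h2
        exact ⟨fun i => (h2 i).1, funext fun i => (h2 i).2⟩
    have hb3 : ∀ k, (β k).2.2 = tt (p₀ k) := by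
      intro k
      rw [← congrFun hp₀β k]
      rfl
    have h2 := hLA (Option S₀) ι (univ : Finset (Option S₀)) J1
      ⟨i₀, Finset.notMem_erase _ _⟩ mA (mB β) (mC β) (fun _ => 0) (fun _ => 0)
      (by
        intro u _ v _
        rcases u with _ | u <;> rcases v with _ | v
        · rfl
        · rfl
        · rfl
        · exact nr_symm (hS₀ u u.2).1.1 (hS₀ u u.2).1.2 (hS₀ v v.2).1.1 (hS₀ v v.2).2)
      (by
        intro u _ k _
        rcases u with _ | u
        · rfl
        · show (β k).1 u = (β k).2.1 u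
          have h3 := congrFun hp₀β k
          rw [← h3]
          exact nr_symm (hS₀ u u.2).1.1 (hS₀ u u.2).1.2 (hpr p₀ hp₀ k).1.1 (hpr p₀ hp₀ k).2)
      (by
        rintro w - ⟨u, hu⟩
        by_cases hw : ∃ u : S₀, w (some u) ≠ 0
        · obtain ⟨k, hk, hk2⟩ := hβ (fun u => w (some u)) hw
          refine ⟨k, Finset.mem_erase.2 ⟨fun h => hi₀ (h ▸ hk), Finset.mem_univ _⟩, ?_⟩
          rw [Fintype.sum_option]
          have h3 : mC β k none = 0 := by
            show (β k).2.2 = 0
            rw [hb3]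
            exact ht1 p₀ hp₀ k hk
          rw [h3, mul_zero, zero_add]
          exact hk2
        · push Not at hw
          refine ⟨i₁, Finset.mem_erase.2 ⟨hne.symm, Finset.mem_univ _⟩, ?_⟩
          rw [Fintype.sum_option]
          have h3 : mC β i₁ none = 1 := by
            show (β i₁).2.2 = 1
            rw [hb3]
            exact ht0 p₀ hp₀ i₁ hi₁
          rw [h3, mul_one, Finset.sum_eq_zero (fun v _ => by rw [hw v, zero_mul]), add_zero]
          rcases u with _ | u
          · exact hu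
          · exact absurd (hw u) hu)
    set Q : (prs J1 → ZMod 2) → Prop := fun α => GdA (univ : Finset (Option S₀))
      J1 mA (mB β) (mC β) (Pool.Agent.Y703.CQ.ext α) (fun _ => 0) (fun _ => 0) with hQ
    have h3 := hEQ ι J1 C' X κ hκ
      (fun i => (Finset.card_le_card (Finset.filter_subset _ _)).trans (hCX i))
      (HB_sub hHB1 fun i q => lb S₀ q = β i) Q
    have h4 : ((Fintype.piFinset C).filter fun p => (fun i => lb S₀ (p i)) = β ∧
        Gd (S₀ ∪ univ.image p)) = ((Fintype.piFinset C').filter fun p =>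
          Q fun e => nr (p e.1.1) (p e.1.2)) := by
      rw [← hpi, Finset.filter_filter]
      refine Finset.filter_congr fun p hp => ?_
      refine and_congr_right fun hl => ?_
      rw [gd_iff (hinj p hp) (hpr p hp) hS₀ (hd p hp) i₀]
      subst hl
      exact Iff.rfl
    have h5 : (((Fintype.piFinset C').card : ℕ) : ℝ) = ∏ j, ((C' j).card : ℝ) := by
      rw [Fintype.card_piFinset]
      push_cast
      rfl
    rw [h4, hpi, h5]
    have h2' : |((univ.filter Q).card : ℝ) / 2 ^ (prs J1).card - c2| ≤ cc := by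
      refine h2.trans (le_of_eq ?_)
      rw [hcc, hU1, hJc]
    set n : ℝ := (((Fintype.piFinset C').filter fun p =>
          Q fun e => nr (p e.1.1) (p e.1.2)).card : ℝ) with hn
    set q : ℝ := ((univ.filter Q).card : ℝ) / 2 ^ (prs J1).card with hq
    set P : ℝ := ∏ j, ((C' j).card : ℝ) with hP
    have hP0 : 0 ≤ P := Finset.prod_nonneg fun j _ => by positivity
    have h6 : |n - c2 * P| ≤ |n - q * P| + |q - c2| * P := by
      have h7 : n - c2 * P = (n - q * P) + (q - c2) * P := by ring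
      have h8 : |(q - c2) * P| = |q - c2| * P := by rw [abs_mul, abs_of_nonneg hP0]
      rw [h7, ← h8]
      exact abs_add_le _ _
    have h7 : |q - c2| * P ≤ cc * P := mul_le_mul_of_nonneg_right h2' hP0
    have h8 : |n - q * P| ≤ R := le_trans h3 hRp
    linarith
  -- sum over the labels
  set LL := univ.filter (fun β : ι → Lb S₀ => LN S₀ T β) with hLL
  have hfib : ∀ W : (ι → ℕ) → Prop,
      (((Fintype.piFinset C).filter fun p => Nd S₀ (univ.image p) ∧ W p).card : ℝ) =
      ∑ β ∈ LL, (((Fintype.piFinset C).filter fun p =>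
        (fun i => lb S₀ (p i)) = β ∧ W p).card : ℝ) := by
    intro W
    rw [Finset.card_eq_sum_card_fiberwise (f := fun (p : ι → ℕ) (i : ι) => lb S₀ (p i))
      (t := LL) (by
        intro p hp
        rw [Finset.mem_coe, Finset.mem_filter] at hp
        rw [Finset.mem_coe, hLL, Finset.mem_filter]
        exact ⟨Finset.mem_univ _, (nd_iff (hJ p hp.1)).1 hp.2.1⟩)]
    push_cast
    refine Finset.sum_congr rfl fun β hβ => ?_
    rw [hLL, Finset.mem_filter] at hβ
    congr 2
    ext p
    simp only [Finset.mem_filter]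
    constructor
    · rintro ⟨⟨h3, h4, h4'⟩, h5⟩
      exact ⟨h3, h5, h4'⟩
    · rintro ⟨h3, h4, h5⟩
      refine ⟨⟨h3, ?_, h5⟩, h4⟩
      rw [nd_iff (hJ p h3), h4]
      exact hβ.2
  have hf1 := hfib fun p => Gd (S₀ ∪ univ.image p)
  have hf2 := hfib fun _ => True
  simp only [and_true] at hf2
  rw [hf1, hf2, Finset.mul_sum, ← Finset.sum_sub_distrib]
  refine (Finset.abs_sum_le_sum_abs _ _).trans ?_
  refine (Finset.sum_le_sum fun β hβ => h1 β (Finset.mem_filter.1 hβ).2).trans ?_
  rw [Finset.sum_add_distrib, ← Finset.mul_sum, Finset.sum_const, nsmul_eq_mul]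
  have h5 : ((LL.card : ℕ) : ℝ) ≤ 2 ^ ((2 * S₀.card + 1) * Fintype.card ι) := by
    have h6 : LL.card ≤ Fintype.card (ι → Lb S₀) := Finset.card_le_univ _
    rw [Fintype.card_fun, Fintype.card_prod, Fintype.card_prod, Fintype.card_fun, ZMod.card,
      Fintype.card_coe, ← pow_succ, ← pow_add, ← pow_mul] at h6
    have h7 : (S₀.card + (S₀.card + 1)) * Fintype.card ι = (2 * S₀.card + 1) * Fintype.card ι := by
      ring
    rw [h7] at h6
    exact_mod_cast h6
  have h6 := mul_le_mul_of_nonneg_right h5 hR0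
  rw [pow_add, mul_assoc]
  linarith

end Pool.Agent.D0H45.Q4.BOX
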