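import Mathlib
import Pool.Agent.D0H45.Q4.Stm

/-! # Q4-NS (after helper514's file for project CQ): translation between the numbers `D` and the sets of primes -/

set_option autoImplicit false

open scoped Classical

namespace Pool.Agent.D0H45.Q4.NS

open Finset Pool.Agent.D0H45.Q4
open Pool.Agent.Y703.CQ (nr sg prs HB S_EQ ext GdA S_SYM S_C2 S_LA c2 S_MER S_CHE)

theorem prime_of_cl {I K S : Finset ℕ} (h : Cl I K S) : ∀ p ∈ S, p.Prime := fun p hp =>
  (pr1 (h p hp)).1

theorem card_eq (I K : Finset ℕ) (X : ℕ) (Q : Finset ℕ → Prop) :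
    ((Icc 1 X).filter fun D => Squarefree D ∧ Cl I K D.primeFactors ∧ Q D.primeFactors).card =
      ((SS I K X).filter Q).card := by
  refine Finset.card_bij (fun D _ => D.primeFactors) ?_ ?_ ?_
  · intro D hD
    obtain ⟨h1, h2, hcl, h4⟩ := Finset.mem_filter.1 hD
    obtain ⟨h5, h6⟩ := Finset.mem_Icc.1 h1
    refine Finset.mem_filter.2 ⟨Finset.mem_filter.2 ⟨?_, hcl, ?_⟩, h4⟩
    · rw [Finset.mem_powerset]
      intro p hp
      have := Nat.le_of_dvd (by omega) (Nat.dvd_of_mem_primeFactors hp)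
      exact Finset.mem_range.2 (by omega)
    · rw [Nat.prod_primeFactors_of_squarefree h2]
      exact h6
  · intro D hD E hE h
    have h2 := (Finset.mem_filter.1 hD).2.1
    have h3 := (Finset.mem_filter.1 hE).2.1
    have h' : D.primeFactors = E.primeFactors := h
    rw [← Nat.prod_primeFactors_of_squarefree h2, ← Nat.prod_primeFactors_of_squarefree h3, h']
  · intro S hS
    obtain ⟨h1, h2⟩ := Finset.mem_filter.1 hS
    obtain ⟨h3, h4, h5⟩ := Finset.mem_filter.1 h1
    have hpr : ∀ p ∈ S, p.Prime := prime_of_cl h4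
    have hpf : (∏ p ∈ S, p).primeFactors = S := Nat.primeFactors_prod hpr
    have hsq : Squarefree (∏ p ∈ S, p) := by
      refine Finset.squarefree_prod_of_pairwise_isCoprime (fun p hp q hq hpq => ?_)
        fun p hp => (hpr p hp).squarefree
      show IsRelPrime p q
      rw [← Nat.coprime_iff_isRelPrime]
      exact (Nat.coprime_primes (hpr p hp) (hpr q hq)).mpr hpq
    refine ⟨∏ p ∈ S, p, ?_, hpf⟩
    have hcl : Cl I K (∏ p ∈ S, p).primeFactors := by rw [hpf]; exact h4
    refine Finset.mem_filter.2 ⟨Finset.mem_Icc.2 ⟨?_, h5⟩, hsq, hcl, ?_⟩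
    · exact Nat.one_le_iff_ne_zero.2 hsq.ne_zero
    · rw [hpf]
      exact h2

theorem t_NS : S_NS := by
  intro hdq I K hOk
  refine (hdq I K hOk).congr fun X => ?_
  have e1 := card_eq I K X Gd
  have e2 := card_eq I K X (fun _ => True)
  rw [Finset.filter_true] at e2
  simp only [and_true] at e2
  rw [← e1, ← e2]

end Pool.Agent.D0H45.Q4.NS
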