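import Pool.Agent.D0H45.Q4.Stm
import Pool.Agent.R413.SQ.BIL
import Pool.Agent.R413.SQ.CNT
import Pool.Agent.R413.SQ.LOW
import Pool.Agent.N148.GB.HAL

/-!
# The parts which are the same as in the projects SQ and GB
-/

set_option autoImplicit false

open scoped Classical

namespace Pool.Agent.D0H45.Q4

open Finset
open Pool.Agent.Y703.CX (sm la jj XX eL zz kk S_SIE)
open Pool.Agent.Y703.CQ (nr sg prs HB S_EQ ext GdA S_SYM S_C2 S_LA c2 S_MER S_CHE)

theorem cl_eq (I K S : Finset ℕ) : Cl I K S ↔ Pool.Agent.R413.SQ.Cl I K S := by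
  constructor
  · intro h p hp
    have := pr1 (h p hp)
    exact Pool.Agent.R413.SQ.of_pr1 I this.1 this.2
  · intro h p hp
    have := Pool.Agent.R413.SQ.pr1 (h p hp)
    exact of_pr1 I this.1 this.2

theorem ss_eq (I K : Finset ℕ) (X : ℕ) : SS I K X = Pool.Agent.R413.SQ.SS I K X := by
  unfold SS Pool.Agent.R413.SQ.SS
  refine Finset.filter_congr fun S _ => ?_
  rw [cl_eq]

theorem t_BIL : S_BIL := Pool.Agent.R413.SQ.BIL.t_BIL

theorem t_CNT : CntP where
  many := by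
    intro I K X k ho hX
    rw [ss_eq]
    exact Pool.Agent.R413.SQ.CNT.t_CNT.many I K X k trivial hX
  cut := by
    intro I K X z H k ho hX hH
    rw [ss_eq]
    exact Pool.Agent.R413.SQ.CNT.t_CNT.cut I K X z H k trivial hX hH
  coll := by
    intro I K X z H ho hX hH
    rw [ss_eq]
    exact Pool.Agent.R413.SQ.CNT.t_CNT.coll I K X z H trivial hX hH

theorem t_LOW : S_LOW := by
  intro hM hC I K ho
  obtain ⟨c, X₀, hc, h⟩ := Pool.Agent.R413.SQ.LOW.t_LOW hM hC I K trivial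
  refine ⟨c, X₀, hc, fun X hX => ?_⟩
  rw [ss_eq]
  exact h X hX

theorem t_HAL : S_HAL := by
  obtain ⟨C, hC, h⟩ := Pool.Agent.N148.GB.t_HAL
  refine ⟨C, hC, fun W T hW hW1 hT => ?_⟩
  refine le_trans (le_of_eq ?_) (h W T hW (fun u hu => ⟨(hW1 u hu).1, by
    have := (hW1 u hu).2
    omega⟩) hT)
  refine Finset.sum_congr ?_ fun _ _ => rfl
  unfold HD Pool.Agent.N916.GB.HD
  refine Finset.filter_congr fun S _ => and_congr_left fun _ => forall₂_congr fun p _ => ?_
  unfold Sp mk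
  constructor
  · rintro ⟨⟨h1, h2, h3⟩, h4, h5⟩
    refine ⟨h1, ?_, h4, h5⟩
    by_contra hc
    rw [if_neg hc] at h2
    omega
  · rintro ⟨h1, h2, h4, h5⟩
    exact ⟨⟨h1, if_pos h2, by omega⟩, h4, h5⟩

end Pool.Agent.D0H45.Q4
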