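import Pool.Agent.D0H45.Q4.Asy
import Pool.Agent.Y356.CQ.EQ
import Pool.Agent.Y839.CQ.SYM
import Pool.Agent.Y948.CQ.C2
import Pool.Agent.Y219.CQ.LA
import Pool.Agent.D0H45.Q4.BOX
import Pool.Agent.D0H45.Q4.KEY
import Pool.Agent.Y405.CQ.MER
import Pool.Agent.Y302.CQ.CHE
import Pool.Agent.D0H45.Q4.Prt
import Pool.Agent.D0H45.Q4.FEW
import Pool.Agent.D0H45.Q4.BAD
import Pool.Agent.D0H45.Q4.NS
import Pool.Agent.Y488.CX.Sie

/-!
# The exact proportion for the Laplacian with the extra vertex `2`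

After the projects CQ and SQ, the joint work of helpers 710, 356, 839, 948, 219, 657, 302, 697, 391,
488, 475, 362, 949, 405, 514, 703 and 413 (and the models of project CX).
-/

set_option autoImplicit false

open scoped Classical
open Finset

namespace Pool.Agent.D0H45.Q4

open Pool.Agent.Y703.CQ (nr c2)

theorem t_DQ_all : S_DQ :=
  t_DQ t_BIL Pool.Agent.Y356.CQ.t_EQ
    (Pool.Agent.Y219.CQ.t_LA Pool.Agent.Y839.CQ.t_SYM Pool.Agent.Y948.CQ.t_C2)
    BOX.t_BOX KEY.t_KEY t_CNT
    Pool.Agent.Y488.CX.t_SIE t_HAL BAD.t_BAD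
    FEW.t_FEW Pool.Agent.Y405.CQ.t_MER Pool.Agent.Y302.CQ.t_CHE
    t_LOW Pool.Agent.Y948.CQ.t_C2

theorem t_DEN : S_DEN := NS.t_NS t_DQ_all

/-- the class: the products of different primes `1` modulo `4` -/
def Cm (m : ℕ) : Prop := Squarefree m ∧ ∀ p ∈ m.primeFactors, p % 4 = 1

/-- **The good `m`**: zero is the only vector over the field with two elements, indexed by the
primes of `m`, which is killed by the Laplacian of the quadratic symbols plus the symbol of `2`. -/
def Good (m : ℕ) : Prop := ∀ x : ℕ → ZMod 2,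
  (∀ p ∈ m.primeFactors, ∑ q ∈ m.primeFactors, nr p q * (x q + x p) +
    (if p % 8 = 5 then 1 else 0) * x p = 0) → ∀ p ∈ m.primeFactors, x p = 0

/-- **The exact proportion of the good numbers** among the products of different primes `1` modulo
`4` is `∏_{i ≥ 0} (1 - 2^{-(2i+1)}) = 0.4194...`. -/
def S_DENQ4 : Prop := Filter.Tendsto (fun X : ℕ =>
  (((Icc 1 X).filter fun m => Cm m ∧ Good m).card : ℝ) / (((Icc 1 X).filter Cm).card : ℝ))
  Filter.atTop (nhds c2)

theorem tt_eq {p : ℕ} (h : p % 4 = 1) : tt p = if p % 8 = 5 then 1 else 0 := by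
  unfold tt mk
  by_cases h1 : p % 8 = 1
  · rw [if_pos h1, if_pos rfl, if_neg (by omega)]
  · rw [if_neg h1, if_neg (by norm_num), if_pos (by omega)]

theorem good_iff {m : ℕ} (h : ∀ p ∈ m.primeFactors, p % 4 = 1) : Good m ↔ Gd m.primeFactors := by
  unfold Good Gd Sol
  refine forall_congr' fun x => ?_
  refine imp_congr_left (forall₂_congr fun p hp => ?_)
  rw [tt_eq (h p hp)]

theorem cm_iff (m : ℕ) : Cm m ↔ Squarefree m ∧ Cl ∅ ∅ m.primeFactors := by
  unfold Cm Cl
  refine and_congr_right fun _ => forall₂_congr fun p hp => ?_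
  constructor
  · exact fun h => of_pr1 ∅ (Nat.prime_of_mem_primeFactors hp) h
  · exact fun h => (pr1 h).2

theorem t_DENQ4 : S_DENQ4 := by
  refine (t_DEN ∅ ∅ trivial).congr fun X => ?_
  have e1 : ((Icc 1 X).filter fun D => Squarefree D ∧ Cl ∅ ∅ D.primeFactors) =
      (Icc 1 X).filter Cm :=
    Finset.filter_congr fun m _ => (cm_iff m).symm
  have e2 : ((Icc 1 X).filter fun D => Squarefree D ∧ Cl ∅ ∅ D.primeFactors ∧
      Gd D.primeFactors) = (Icc 1 X).filter fun m => Cm m ∧ Good m := by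
    refine Finset.filter_congr fun m _ => ?_
    rw [← and_assoc, ← cm_iff]
    exact and_congr_right fun h => (good_iff h.2).symm
  rw [e1, e2]

end Pool.Agent.D0H45.Q4
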